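import Mathlib

/-! # Values of `lcm(1,…,n)` over the denominator of the harmonic number

We show that no multiple of `81` is of the form `a(n) = lcm(1,…,n) / q_n`, where `q_n` is the
denominator of `H_n`. In particular the odd number `81` is not a value, so the answer to the
question is negative. The reason: `3^e` divides `a(n)` only if the number formed by the first `e`
ternary digits of `n` has a harmonic number with numerator divisible by `3`, and no number with four
ternary digits has this property. -/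

set_option autoImplicit false

namespace Pool.Agent.Results.MP_2b19eb_nt.EightyOne

open Finset

/-- the harmonic number `H_n = 1 + 1/2 + … + 1/n` -/
def H (n : ℕ) : ℚ := ∑ k ∈ Finset.Icc 1 n, (1 : ℚ) / (k : ℚ)

/-- `L_n = lcm(1, 2, …, n)` -/
def L (n : ℕ) : ℕ := (Finset.Icc 1 n).lcm id

/-- auxiliary recursive form of the harmonic number -/
def Hr : ℕ → ℚ
  | 0 => 0
  | (n + 1) => Hr n + 1 / ((n + 1 : ℕ) : ℚ)

theorem H_eq_Hr (n : ℕ) : H n = Hr n := by
  induction n with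
  | zero => simp [H, Hr]
  | succ n ih =>
    rw [Hr, ← ih, H, Finset.sum_Icc_succ_top (by omega), ← H]

/-- the finite check: numbers with four ternary digits -/
theorem check : ∀ N : Fin 81, 27 ≤ (N : ℕ) → ¬ (3 ∣ (Hr N).num) := by
  decide +kernel

instance : Fact (Nat.Prime 3) := ⟨Nat.prime_three⟩

theorem norm_HN {N : ℕ} (h1 : 27 ≤ N) (h2 : N < 81) : 1 ≤ padicNorm 3 (H N) := by
  have h3 : ¬ ((3 : ℕ) : ℤ) ∣ (H N).num := by
    rw [H_eq_Hr]; exact check ⟨N, h2⟩ h1
  have hnum : padicNorm 3 ((H N).num : ℚ) = 1 := by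
    rw [padicNorm.int_eq_one_iff]; exact h3
  have hden : padicNorm 3 ((H N).den : ℚ) ≤ 1 := padicNorm.of_nat _
  have hdpos : 0 < padicNorm 3 ((H N).den : ℚ) := by
    refine lt_of_le_of_ne (padicNorm.nonneg _) (Ne.symm (padicNorm.nonzero ?_))
    exact_mod_cast (H N).den_nz
  have : padicNorm 3 (H N) = padicNorm 3 ((H N).num : ℚ) / padicNorm 3 ((H N).den : ℚ) := by
    rw [← padicNorm.div, Rat.num_div_den]
  rw [this, hnum, le_div_iff₀ hdpos]
  linarith

/-- the norm of `1/j` when `3^(m+1)` does not divide `j` -/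
theorem norm_inv_le {j m : ℕ} (hj : j ≠ 0) (h : ¬ 3 ^ (m + 1) ∣ j) :
    padicNorm 3 ((1 : ℚ) / (j : ℚ)) ≤ (3 : ℚ) ^ m := by
  have hj' : (j : ℚ) ≠ 0 := by exact_mod_cast hj
  rw [padicNorm.div, padicNorm.one]
  have hpos : 0 < padicNorm 3 (j : ℚ) :=
    lt_of_le_of_ne (padicNorm.nonneg _) (Ne.symm (padicNorm.nonzero hj'))
  rw [div_le_iff₀ hpos]
  have hv : padicNorm 3 (j : ℚ) = (3 : ℚ) ^ (-((padicValNat 3 j : ℕ) : ℤ)) := by
    rw [padicNorm.eq_zpow_of_nonzero hj', padicValRat.of_nat]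
    norm_cast
  have hle : padicValNat 3 j ≤ m := by
    by_contra hcon
    push Not at hcon
    apply h
    exact (padicValNat_dvd_iff_le hj).mpr (by omega)
  rw [hv, zpow_neg, zpow_natCast]
  rw [← div_eq_mul_inv, le_div_iff₀ (by positivity), one_mul]
  exact pow_le_pow_right₀ (by norm_num) hle

/-- the multiples of `d` among `1,…,n` contribute `H_{n/d} / d` -/
theorem split (n d : ℕ) (hd : 0 < d) :
    H n = ∑ k ∈ (Finset.Icc 1 n).filter (fun k => ¬ d ∣ k), (1 : ℚ) / (k : ℚ) +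
      (1 / (d : ℚ)) * H (n / d) := by
  rw [H, ← Finset.sum_filter_not_add_sum_filter (Finset.Icc 1 n) (fun k => d ∣ k)]
  congr 1
  rw [H, Finset.mul_sum]
  symm
  apply Finset.sum_bij (fun k _ => d * k)
  · intro k hk
    simp only [Finset.mem_Icc, Finset.mem_filter] at hk ⊢
    refine ⟨⟨Nat.mul_pos hd hk.1, ?_⟩, Dvd.intro _ rfl⟩
    rw [mul_comm]
    exact (Nat.le_div_iff_mul_le hd).mp hk.2
  · intro a _ b _ hab
    exact Nat.eq_of_mul_eq_mul_left hd hab
  · intro b hb
    simp only [Finset.mem_Icc, Finset.mem_filter] at hb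
    obtain ⟨⟨hb1, hb2⟩, c, rfl⟩ := hb
    refine ⟨c, ?_, rfl⟩
    simp only [Finset.mem_Icc]
    constructor
    · rcases Nat.eq_zero_or_pos c with h | h
      · subst h; simp at hb1
      · exact h
    · rw [Nat.le_div_iff_mul_le hd, mul_comm]; exact hb2
  · intro a _
    push_cast
    rw [div_mul_div_comm, one_mul]

/-- the exact power of `3` in `L n` is at most `3^k` when `n < 3^(k+1)` -/
theorem L_dvd (n k : ℕ) (hn : n < 3 ^ (k + 1)) : ∃ M : ℕ, ¬ 3 ∣ M ∧ L n ∣ 3 ^ k * M := by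
  refine ⟨∏ j ∈ Finset.Icc 1 n, ordCompl[3] j, ?_, ?_⟩
  · intro h
    obtain ⟨j, hj, hj2⟩ := (Prime.dvd_finsetProd_iff (Nat.prime_iff.mp Nat.prime_three) _).mp h
    have hj0 : j ≠ 0 := by
      have := (Finset.mem_Icc.mp hj).1; omega
    exact Nat.not_dvd_ordCompl Nat.prime_three hj0 hj2
  · apply Finset.lcm_dvd
    intro j hj
    have hj0 : j ≠ 0 := by
      have := (Finset.mem_Icc.mp hj).1; omega
    have hjn : j ≤ n := (Finset.mem_Icc.mp hj).2
    have h1 : ordProj[3] j ∣ 3 ^ k := by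
      apply pow_dvd_pow
      have h2 : 3 ^ (j.factorization 3) ≤ j := Nat.ordProj_le 3 hj0
      have h3 : 3 ^ (j.factorization 3) < 3 ^ (k + 1) := by omega
      have := (Nat.pow_lt_pow_iff_right (by norm_num : 1 < 3)).mp h3
      omega
    calc id j = ordProj[3] j * ordCompl[3] j := (Nat.ordProj_mul_ordCompl_eq_self j 3).symm
      _ ∣ 3 ^ k * ∏ j ∈ Finset.Icc 1 n, ordCompl[3] j :=
        mul_dvd_mul h1 (Finset.dvd_prod_of_mem _ hj)

/-- the denominator of `H_n` divides `L_n` -/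
theorem den_dvd_L (n : ℕ) : (H n).den ∣ L n := by
  have hL : L n ≠ 0 := by
    rw [L, Ne, Finset.lcm_eq_zero_iff]
    simp
  have key : ∃ z : ℤ, (L n : ℚ) * H n = z := by
    rw [H, Finset.mul_sum]
    have h : ∀ k ∈ Finset.Icc 1 n, (L n : ℚ) * ((1 : ℚ) / (k : ℚ)) = ((L n / k : ℕ) : ℚ) := by
      intro k hk
      have hdvd : k ∣ L n := Finset.dvd_lcm (f := id) hk
      have hk0 : (k : ℚ) ≠ 0 := by
        have := (Finset.mem_Icc.mp hk).1
        exact_mod_cast (by omega : k ≠ 0)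
      rw [Nat.cast_div hdvd hk0]
      ring
    rw [Finset.sum_congr rfl h]
    exact ⟨((∑ k ∈ Finset.Icc 1 n, L n / k : ℕ) : ℤ), by push_cast; rfl⟩
  obtain ⟨z, hz⟩ := key
  have h2 : H n = (z : ℚ) / ((L n : ℤ) : ℚ) := by
    rw [eq_div_iff (by exact_mod_cast hL), mul_comm]
    exact_mod_cast hz
  have h3 : ((H n).den : ℤ) ∣ (L n : ℤ) := by
    rw [h2, ← Rat.divInt_eq_div]
    exact Rat.den_dvd z (L n : ℤ)
  exact_mod_cast h3

/-- **No multiple of `81` is a value of `a(n) = lcm(1,…,n) / q_n`**, where `q_n` is the denominator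
of the `n`-th harmonic number (which divides `lcm(1,…,n)`). Hence not every odd positive integer is
a value. -/
theorem result :
    (∀ n : ℕ, 1 ≤ n → (H n).den ∣ L n ∧ ¬ (81 ∣ L n / (H n).den)) ∧
    ¬ (∀ m : ℕ, Odd m → ∃ n : ℕ, 1 ≤ n ∧ L n / (H n).den = m) := by
  have main : ∀ n : ℕ, 1 ≤ n → (H n).den ∣ L n ∧ ¬ (81 ∣ L n / (H n).den) := by
    intro n hn
    refine ⟨den_dvd_L n, ?_⟩
    intro h81
    -- `81 * q_n` divides `L_n`
    have hdvd : 81 * (H n).den ∣ L n := by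
      obtain ⟨c, hc⟩ := h81
      have := Nat.div_mul_cancel (den_dvd_L n)
      rw [hc] at this
      exact ⟨c, by rw [← this]; ring⟩
    set k := Nat.log 3 n with hk
    have hk1 : 3 ^ k ≤ n := Nat.pow_log_le_self 3 (by omega)
    have hk2 : n < 3 ^ (k + 1) := Nat.lt_pow_succ_log_self (by norm_num) n
    obtain ⟨M, hM, hLM⟩ := L_dvd n k hk2
    have h4 : 81 * (H n).den ∣ 3 ^ k * M := hdvd.trans hLM
    have hcop : Nat.Coprime (3 ^ 4) M := by
      apply Nat.Coprime.pow_left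
      exact (Nat.Prime.coprime_iff_not_dvd Nat.prime_three).mpr hM
    have hk4 : 4 ≤ k := by
      have h5 : 3 ^ 4 ∣ 3 ^ k * M := (Dvd.intro _ rfl : (3:ℕ) ^ 4 ∣ 81 * (H n).den).trans h4
      have h6 : 3 ^ 4 ∣ 3 ^ k := hcop.dvd_of_dvd_mul_right h5
      exact (Nat.pow_dvd_pow_iff_le_right (by norm_num)).mp h6
    obtain ⟨m, hm⟩ : ∃ m, k = m + 4 := ⟨k - 4, by omega⟩
    -- the power of `3` in `q_n` is at most `3^m`
    have hden : (H n).den ∣ 3 ^ m * M := by
      have h7 : 81 * (H n).den ∣ 81 * (3 ^ m * M) := by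
        have : 3 ^ k * M = 81 * (3 ^ m * M) := by rw [hm, pow_add]; ring
        rwa [this] at h4
      exact Nat.dvd_of_mul_dvd_mul_left (by norm_num) h7
    have hden3 : ¬ 3 ^ (m + 1) ∣ (H n).den := by
      intro h8
      have h9 : 3 ^ (m + 1) ∣ 3 ^ m * M := h8.trans hden
      have h10 : 3 ^ (m + 1) ∣ 3 ^ m :=
        (Nat.Coprime.dvd_of_dvd_mul_right
          (Nat.Coprime.pow_left _ ((Nat.Prime.coprime_iff_not_dvd Nat.prime_three).mpr hM)) h9)
      have := (Nat.pow_dvd_pow_iff_le_right (by norm_num : 1 < 3)).mp h10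
      omega
    have hnormH : padicNorm 3 (H n) ≤ (3 : ℚ) ^ m := by
      have h11 : H n = ((H n).num : ℚ) * (1 / ((H n).den : ℚ)) := by
        rw [mul_one_div, Rat.num_div_den]
      rw [h11, padicNorm.mul]
      calc padicNorm 3 ((H n).num : ℚ) * padicNorm 3 (1 / ((H n).den : ℚ))
          ≤ 1 * (3 : ℚ) ^ m := by
            apply mul_le_mul (padicNorm.of_int _) (norm_inv_le (H n).den_nz hden3)
              (padicNorm.nonneg _) (by norm_num)
        _ = (3 : ℚ) ^ m := one_mul _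
    -- split off the multiples of `3^(m+1)`
    set N := n / 3 ^ (m + 1) with hN
    have hN1 : 27 ≤ N := by
      rw [hN, Nat.le_div_iff_mul_le (by positivity)]
      calc 27 * 3 ^ (m + 1) = 3 ^ (m + 4) := by ring
        _ ≤ n := by rw [← hm]; exact hk1
    have hN2 : N < 81 := by
      rw [hN, Nat.div_lt_iff_lt_mul (by positivity)]
      calc n < 3 ^ (k + 1) := hk2
        _ = 81 * 3 ^ (m + 1) := by rw [hm]; ring
    have hsplit := split n (3 ^ (m + 1)) (by positivity)
    rw [← hN] at hsplit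
    set A := ∑ k ∈ (Finset.Icc 1 n).filter (fun k => ¬ 3 ^ (m + 1) ∣ k), (1 : ℚ) / (k : ℚ) with hA
    have hnormA : padicNorm 3 A ≤ (3 : ℚ) ^ m := by
      apply padicNorm.sum_le'
      · intro j hj
        rw [Finset.mem_filter, Finset.mem_Icc] at hj
        exact norm_inv_le (by omega) hj.2
      · positivity
    have hB : (1 / ((3 ^ (m + 1) : ℕ) : ℚ)) * H N = H n - A := by rw [hsplit]; ring
    have hnormB : padicNorm 3 ((1 / ((3 ^ (m + 1) : ℕ) : ℚ)) * H N) ≤ (3 : ℚ) ^ m := by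
      rw [hB]
      exact padicNorm.sub.trans (max_le hnormH hnormA)
    have hpow : padicNorm 3 (1 / ((3 ^ (m + 1) : ℕ) : ℚ)) = (3 : ℚ) ^ (m + 1) := by
      rw [padicNorm.div, padicNorm.one]
      have hne : (((3 ^ (m + 1) : ℕ)) : ℚ) ≠ 0 := by positivity
      rw [padicNorm.eq_zpow_of_nonzero hne, padicValRat.of_nat, padicValNat.prime_pow]
      rw [zpow_neg, one_div, inv_inv]
      norm_cast
    rw [padicNorm.mul, hpow] at hnormB
    have h12 := norm_HN hN1 hN2
    have h13 : (3 : ℚ) ^ (m + 1) * 1 ≤ (3 : ℚ) ^ (m + 1) * padicNorm 3 (H N) :=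
      mul_le_mul_of_nonneg_left h12 (by positivity)
    have h14 : (3 : ℚ) ^ (m + 1) ≤ (3 : ℚ) ^ m := by linarith
    have h15 : (3 : ℚ) ^ m < (3 : ℚ) ^ (m + 1) := by
      apply pow_lt_pow_right₀ (by norm_num) (by omega)
    linarith
  refine ⟨main, ?_⟩
  intro h
  obtain ⟨n, hn, hn2⟩ := h 81 (by decide)
  exact (main n hn).2 (by rw [hn2])

end Pool.Agent.Results.MP_2b19eb_nt.EightyOne
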